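import Pool.Agent.W265.FP.Main

/-!
# MP_913d7c_lc: automorphisms of `P(ω₁)/Fin` without nontrivial fixed points and `P(ω)/Fin`

The proof uses the theorem of `Pool.Agent.W869.AV`: an automorphism of `P(ω₁)/Fin` which is trivial
on all countable sets is trivial. A trivial automorphism is induced by a function with countable
fibres, and the unions of countably many components of the function are fixed. If all automorphisms
of `P(ω)/Fin` are trivial then the images of countable sets are countable and every automorphism of
`P(ω₁)/Fin` is trivial on all countable sets.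
-/

set_option autoImplicit false

namespace Pool.Agent.Results.MP_913d7c_lc.NontrivialOmega

open Cardinal Pool.Agent.W869.AV Pool.Agent.W265.FP

theorem result (φ : Quo ℵ₀ le_rfl Om ≃o Quo ℵ₀ le_rfl Om) (h : ¬ HasNontrivialFixedPoint φ) :
    (∃ A : Set Om, #A = ℵ₀ ∧ ¬ IsTrivialOn φ A) ∧
      ∃ ψ : Quo ℵ₀ le_rfl ℕ ≃o Quo ℵ₀ le_rfl ℕ, ¬ IsTrivial ψ := by
  constructor
  · by_contra hcon
    push Not at hcon
    exact h (main1 φ hcon)
  · by_contra hcon
    push Not at hcon
    exact h (main3 hcon φ)

end Pool.Agent.Results.MP_913d7c_lc.NontrivialOmega
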