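import Pool.Agent.W265.FP.Main

/-!
# MP_913d7c_lc: powers of cardinality-preserving automorphisms of `P(ω₁)/Fin` without nontrivial
fixed points

The theorem of `Pool.Agent.W869.AV` (an automorphism which is trivial on all countable sets is
trivial) is transferred to the complement of a countable set and applied to the restriction of the
power. Countable unions of components of the function which induces the restriction are fixed by the
power, and the join of such a set and its images under the smaller powers is fixed.
-/

set_option autoImplicit false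

namespace Pool.Agent.Results.MP_913d7c_lc.NontrivialPowers

open Cardinal Pool.Agent.W869.AV Pool.Agent.W265.FP

theorem result (φ : Quo ℵ₀ le_rfl Om ≃o Quo ℵ₀ le_rfl Om) (hc : CardPres φ)
    (h : ¬ HasNontrivialFixedPoint φ) (n : ℤ) (hn : n ≠ 0) (C : Set Om) (hC : C.Countable) :
    ∃ A : Set Om, #A = ℵ₀ ∧ Disjoint A C ∧ ¬ IsTrivialOn (φ ^ n) A := by
  by_contra hcon
  push Not at hcon
  rcases Int.lt_or_gt_of_ne hn with h1 | h1
  · obtain ⟨k, hk⟩ := Int.exists_eq_neg_ofNat h1.le
    have hk1 : 1 ≤ k := by omega
    have hc' : CardPres (φ⁻¹) := by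
      intro A B hA hB hAB
      have h2 : φ (cls le_rfl B) = cls le_rfl A := by
        rw [← hAB]
        exact φ.apply_symm_apply _
      exact (hc B A hB hA h2).symm
    have h3 : ((φ⁻¹) ^ k) = φ ^ n := by
      rw [hk, zpow_neg, zpow_natCast, inv_pow]
    obtain ⟨A, hA, hA', hfix⟩ := main2 hc' hk1 C hC (fun A hA hd => by
      rw [h3]
      exact hcon A hA hd)
    refine h ⟨A, hA, hA', ?_⟩
    have h4 : φ ((φ⁻¹) (cls le_rfl A)) = cls le_rfl A := φ.apply_symm_apply _
    rw [hfix] at h4
    exact h4
  · obtain ⟨k, hk⟩ := Int.eq_ofNat_of_zero_le h1.le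
    have hk1 : 1 ≤ k := by omega
    have h3 : φ ^ k = φ ^ n := by
      rw [hk, zpow_natCast]
    exact h (main2 hc hk1 C hC (fun A hA hd => by
      rw [h3]
      exact hcon A hA hd))

end Pool.Agent.Results.MP_913d7c_lc.NontrivialPowers
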